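import Pool.Agent.Q180.Pseudo

/-!
# Dense countably compact subgroups of `K ^ ω₁` under Martin's axiom

Under Martin's axiom for `ℵ₁` dense sets every point in the closure of a countable subset `B` of
`K ^ ω₁` is the limit of a sequence of points of `B`. So a countably compact subgroup contains the
closures of its countable subgroups, which are uncountable compact groups if they are infinite.
Martin's axiom for `ℵ₁` dense sets is forced by a notion of forcing preserving `ω₁` (starting
files).
-/

set_option autoImplicit false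

open Set Topology Filter

namespace Pool.Agent.Results.MP_e377f6_gt.UncountableCompact

open Pool.Agent.Helper669.Forcing Pool.Agent.W684 Pool.Agent.W684.FM

/-- Countable compactness: every countable open cover has a finite subcover. -/
def CountablyCompact (X : Type) [TopologicalSpace X] : Prop :=
  ∀ U : ℕ → Set X, (∀ n, IsOpen (U n)) → ⋃ n, U n = univ →
    ∃ t : Finset ℕ, ⋃ n ∈ t, U n = univ

/-- The set `ω₁`. -/
abbrev Om1 : Type := Pool.Agent.W684.FM.Om1

/-- `K ^ ω₁` has a dense countably compact subgroup all of whose compact subsets are countable. -/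
def HasGoodSubgroup (K : Type) [AddCommGroup K] [TopologicalSpace K] : Prop :=
  ∃ D : AddSubgroup (Om1 → K), Dense (D : Set (Om1 → K)) ∧ CountablyCompact D ∧
    ∀ C : Set (Om1 → K), C ⊆ D → IsCompact C → C.Countable

/-- A sequence in a countably compact space has a cluster point. -/
theorem exists_cluster {X : Type} [TopologicalSpace X] (hX : CountablyCompact X) (s : ℕ → X) :
    ∃ d : X, ∀ V : Set X, IsOpen V → d ∈ V → {n | s n ∈ V}.Infinite := by
  by_contra! h
  obtain ⟨t, ht⟩ := hX (fun n => (closure (s '' Ici n))ᶜ)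
    (fun n => isClosed_closure.isOpen_compl) (by
      refine eq_univ_of_forall fun d => ?_
      obtain ⟨V, hV, hd, hfin⟩ := h d
      obtain ⟨n, hn⟩ := hfin.bddAbove
      refine mem_iUnion.2 ⟨n + 1, fun hd' => ?_⟩
      obtain ⟨_, hy1, ⟨m, hm, rfl⟩⟩ := mem_closure_iff.1 hd' V hV hd
      have h1 : m ≤ n := hn hy1
      have h2 : n + 1 ≤ m := hm
      omega)
  have h1 : s (t.sup id) ∈ ⋃ n ∈ t, (closure (s '' Ici n))ᶜ := by
    rw [ht]
    trivial
  obtain ⟨n, hn, hsn⟩ := mem_iUnion₂.1 h1
  exact hsn (subset_closure ⟨_, Finset.le_sup (f := id) hn, rfl⟩)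

/-- An infinite compact Hausdorff group is uncountable. -/
theorem uncountable_group {G : Type} [AddCommGroup G] [TopologicalSpace G]
    [IsTopologicalAddGroup G] [CompactSpace G] [T2Space G] [Infinite G] : ¬ Countable G := by
  intro hc
  obtain ⟨g, hg⟩ := nonempty_interior_of_iUnion_of_closed (f := fun g : G => ({g} : Set G))
    (fun g => isClosed_singleton) (eq_univ_of_forall fun g => mem_iUnion.2 ⟨g, rfl⟩)
  have h1 : IsOpen ({g} : Set G) := by
    have h2 : interior ({g} : Set G) = {g} := by
      rcases Set.subset_singleton_iff_eq.1 (interior_subset (s := ({g} : Set G))) with h | h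
      · rw [h] at hg
        exact absurd hg Set.not_nonempty_empty
      · exact h
    rw [← h2]
    exact isOpen_interior
  have h2 : IsOpen ({0} : Set G) := by
    have h3 : ({0} : Set G) = (fun x => g + x) ⁻¹' {g} := by
      ext x
      simp
    rw [h3]
    exact h1.preimage (by fun_prop)
  have : DiscreteTopology G := discreteTopology_of_isOpen_singleton_zero h2
  exact not_finite_iff_infinite.2 ‹Infinite G› finite_of_compact_of_discrete

variable {K : Type} [AddCommGroup K] [TopologicalSpace K] [IsTopologicalAddGroup K]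
  [CompactSpace K] [T2Space K] [FirstCountableTopology K] [Nontrivial K]

omit [AddCommGroup K] [IsTopologicalAddGroup K] [CompactSpace K] [Nontrivial K] in
/-- Under Martin's axiom for `ℵ₁` dense sets every countably compact subset of `K ^ ω₁` contains
the closures of its countable subsets. -/
theorem closure_subset (hMA : MartinAxiomAleph1) {D B : Set (Om1 → K)} (hD : CountablyCompact D)
    (hB : B.Countable) (hBD : B ⊆ D) : closure B ⊆ D := by
  classical
  intro x hx
  by_cases hxB : x ∈ B
  · exact hBD hxB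
  -- every neighbourhood of `x` contains infinitely many points of `B`
  have hinf : ∀ W ∈ 𝓝 x, (W ∩ B).Infinite := by
    intro W hW hfin
    have h1 : W ∩ (W ∩ B)ᶜ ∈ 𝓝 x :=
      inter_mem hW (hfin.isClosed.isOpen_compl.mem_nhds fun h => hxB h.2)
    obtain ⟨y, hy1, hy2⟩ := mem_closure_iff_nhds.1 hx _ h1
    exact hy1.2 ⟨hy1.1, hy2⟩
  have hBne : B.Nonempty := by
    obtain ⟨y, hy⟩ := (hinf univ univ_mem).nonempty
    exact ⟨y, hy.2⟩
  have hBinf : B.Infinite := (hinf univ univ_mem).mono inter_subset_right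
  have : Countable B := hB.to_subtype
  have : Infinite B := hBinf.to_subtype
  obtain ⟨e⟩ := nonempty_equiv_of_countable (α := ℕ) (β := B)
  -- the countable bases at the coordinates
  have hbasis : ∀ a : Om1, ∃ V : ℕ → Set K, (𝓝 (x a)).HasBasis (fun _ => True) V := by
    intro a
    obtain ⟨V, hV⟩ := (𝓝 (x a)).exists_antitone_basis
    exact ⟨V, hV.toHasBasis⟩
  choose V hV using hbasis
  let A : Om1 × ℕ → Set ℕ := fun q => {n | (e n : Om1 → K) q.1 ∈ V q.1 q.2}
  have hnhds : ∀ q : Om1 × ℕ, {y : Om1 → K | y q.1 ∈ V q.1 q.2} ∈ 𝓝 x := fun q =>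
    (continuous_apply q.1).continuousAt.preimage_mem_nhds ((hV q.1).mem_of_mem trivial)
  obtain ⟨S, hS, hSA⟩ := Pool.Agent.Q180.Pseudo.exists_pseudo (κ := Cardinal.aleph 1)
    (Cardinal.aleph0_le_aleph 1) (martinAxiomAleph1_iff.1 hMA) (I := Om1 × ℕ) (by
      rw [Cardinal.mk_prod, Cardinal.lift_id, Cardinal.lift_id, Cardinal.mk_nat]
      have : Cardinal.mk Om1 = Cardinal.aleph 1 := by simp
      rw [this]
      exact (mul_le_mul' le_rfl (Cardinal.aleph0_le_aleph 1)).trans
        (Cardinal.mul_eq_self (Cardinal.aleph0_le_aleph 1)).le) A (by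
      intro F
      have h1 : (⋂ q ∈ F, {y : Om1 → K | y q.1 ∈ V q.1 q.2}) ∈ 𝓝 x :=
        (Filter.biInter_finset_mem F).2 fun q _ => hnhds q
      have h2 := hinf _ h1
      have h3 : (⋂ q ∈ F, {y : Om1 → K | y q.1 ∈ V q.1 q.2}) ∩ B ⊆
          (fun n => (e n : Om1 → K)) '' (⋂ q ∈ F, A q) := by
        rintro y ⟨hy1, hy2⟩
        refine ⟨e.symm ⟨y, hy2⟩, mem_iInter₂.2 fun q hq => ?_, by simp⟩
        have h4 := mem_iInter₂.1 hy1 q hq
        show (e (e.symm ⟨y, hy2⟩) : Om1 → K) q.1 ∈ V q.1 q.2
        rw [Equiv.apply_symm_apply]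
        exact h4
      exact Set.Infinite.of_image _ (h2.mono h3))
  -- a sequence enumerating `S`
  let s : ℕ → D := fun n => ⟨e (hS.natEmbedding S n), hBD (e _).2⟩
  have hs : ∀ W ∈ 𝓝 x, {n | ((s n : D) : Om1 → K) ∉ W}.Finite := by
    have hsub : ∀ q : Om1 × ℕ, {n | ((s n : D) : Om1 → K) ∉
        {y : Om1 → K | y q.1 ∈ V q.1 q.2}}.Finite := by
      intro q
      refine Set.Finite.of_finite_image (f := fun n => (hS.natEmbedding S n : ℕ))
        ((hSA q).subset ?_) ?_
      · rintro _ ⟨n, hn, rfl⟩
        exact ⟨(hS.natEmbedding S n).2, hn⟩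
      · intro m _ n _ h
        exact (hS.natEmbedding S).injective (Subtype.ext h)
    have htend : Tendsto (fun n => ((s n : D) : Om1 → K)) cofinite (𝓝 x) := by
      refine tendsto_pi_nhds.2 fun a => ((hV a).tendsto_right_iff).2 fun i _ => ?_
      exact (hsub (a, i))
    intro W hW
    exact htend.eventually hW
  obtain ⟨d, hd⟩ := exists_cluster hD s
  have hdx : (d : Om1 → K) = x := by
    by_contra hne
    obtain ⟨U, W, hU, hW, hdU, hxW, hUW⟩ := t2_separation hne
    refine hd (Subtype.val ⁻¹' U) (hU.preimage continuous_subtype_val) hdU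
      ((hs W (hW.mem_nhds hxW)).subset fun n hn hn' => ?_)
    exact Set.disjoint_left.1 hUW hn hn'
  rw [← hdx]
  exact d.2

/-- Under Martin's axiom for `ℵ₁` dense sets every dense countably compact subgroup of `K ^ ω₁`
contains an uncountable compact set. -/
theorem main (hMA : MartinAxiomAleph1) (D : AddSubgroup (Om1 → K))
    (hdense : Dense (D : Set (Om1 → K))) (hD : CountablyCompact D) :
    ∃ C : Set (Om1 → K), C ⊆ D ∧ IsCompact C ∧ ¬ C.Countable := by
  have hinf : (D : Set (Om1 → K)).Infinite := by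
    intro hfin
    have h1 : (D : Set (Om1 → K)) = univ := by
      rw [← hfin.isClosed.closure_eq]
      exact hdense.closure_eq
    have h2 : Infinite (Om1 → K) := inferInstance
    rw [h1] at hfin
    exact Set.infinite_univ hfin
  let s : ℕ → Om1 → K := fun n => hinf.natEmbedding _ n
  have hs : ∀ n, s n ∈ D := fun n => (hinf.natEmbedding _ n).2
  have hsinj : Function.Injective s := Subtype.val_injective.comp (hinf.natEmbedding _).injective
  let φ : (ℕ →₀ ℤ) →+ (Om1 → K) := Finsupp.liftAddHom fun n => zmultiplesHom _ (s n)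
  let B : AddSubgroup (Om1 → K) := φ.range
  have hsB : ∀ n, s n ∈ B := fun n => ⟨Finsupp.single n 1, by simp [φ]⟩
  have hBD : B ≤ D := by
    rintro _ ⟨c, rfl⟩
    have h1 : φ c = c.sum fun n z => zmultiplesHom _ (s n) z := rfl
    rw [h1]
    exact D.sum_mem fun n _ => D.zsmul_mem (hs n) _
  have hBc : (B : Set (Om1 → K)).Countable := by
    rw [AddMonoidHom.coe_range]
    exact countable_range φ
  have hsub : (B.topologicalClosure : Set (Om1 → K)) ⊆ D := by
    rw [AddSubgroup.topologicalClosure_coe]
    exact closure_subset hMA hD hBc hBD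
  refine ⟨B.topologicalClosure, hsub, B.isClosed_topologicalClosure.isCompact, fun hcount => ?_⟩
  have h1 : CompactSpace B.topologicalClosure :=
    isCompact_iff_compactSpace.1 B.isClosed_topologicalClosure.isCompact
  have h2 : Infinite B.topologicalClosure := by
    refine Infinite.of_injective (fun n : ℕ => (⟨s n, B.le_topologicalClosure
      (hsB n)⟩ : B.topologicalClosure)) ?_
    intro m n h
    have h' : s m = s n := congrArg (fun z : B.topologicalClosure => (z : Om1 → K)) h
    exact hsinj h'
  exact uncountable_group (G := B.topologicalClosure) hcount.to_subtype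

/-- (1) Some notion of forcing preserves `ω₁` and forces Martin's axiom for `ℵ₁` dense sets, in the
form `MartinFor Om1`; (2) this form is equivalent to the usual one. (3) Martin's axiom for `ℵ₁`
dense sets implies that every dense countably compact subgroup of `K ^ ω₁` contains an uncountable
compact subset, for `K` the circle or a cyclic group of prime order, (4) and more generally for
every compact Hausdorff first countable abelian group `K` with at least two elements. -/
theorem result :
    (∃ (P : Type) (_ : Preorder P), Nonempty P ∧ ∀ p : P,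
      p ∈ OmegaOnePreserved P ∧ p ∈ MartinHolds P Om1) ∧
    (MartinFor Om1 ↔ MartinAxiomAleph1) ∧
    (MartinAxiomAleph1 → ¬ HasGoodSubgroup (AddCircle (1 : ℝ)) ∧
      ∀ p : ℕ, p.Prime → ¬ HasGoodSubgroup (ZMod p)) ∧
    (MartinAxiomAleph1 → ∀ (K : Type) [AddCommGroup K] [TopologicalSpace K]
      [IsTopologicalAddGroup K] [CompactSpace K] [T2Space K] [FirstCountableTopology K]
      [Nontrivial K] (D : AddSubgroup (Om1 → K)), Dense (D : Set (Om1 → K)) →
      CountablyCompact D → ∃ C : Set (Om1 → K), C ⊆ D ∧ IsCompact C ∧ ¬ C.Countable) := by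
  refine ⟨?_, ?_, fun hMA => ⟨?_, fun p hp => ?_⟩, fun hMA K _ _ _ _ _ _ _ D => main hMA D⟩
  · obtain ⟨P, hP, hne, h⟩ := Pool.Agent.W684.FM.exists_forcing Om1
    exact ⟨P, hP, hne, fun p => (h p).2⟩
  · rw [martinFor_iff, martinAxiomAleph1_iff]
    have : Cardinal.mk Om1 = Cardinal.aleph 1 := by simp
    rw [this]
  · rintro ⟨D, h1, h2, h3⟩
    have : Fact ((0 : ℝ) < 1) := ⟨one_pos⟩
    have : Nontrivial (AddCircle (1 : ℝ)) := by
      refine ⟨((1 / 2 : ℝ) : AddCircle (1 : ℝ)), 0, fun h => ?_⟩
      rw [AddCircle.coe_eq_zero_iff_of_mem_Ico (by constructor <;> norm_num)] at h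
      norm_num at h
    obtain ⟨C, hC1, hC2, hC3⟩ := main hMA D h1 h2
    exact hC3 (h3 C hC1 hC2)
  · rintro ⟨D, h1, h2, h3⟩
    have : Fact p.Prime := ⟨hp⟩
    have : Fact (1 < p) := ⟨hp.one_lt⟩
    have : NeZero p := ⟨hp.ne_zero⟩
    obtain ⟨C, hC1, hC2, hC3⟩ := main hMA D h1 h2
    exact hC3 (h3 C hC1 hC2)

end Pool.Agent.Results.MP_e377f6_gt.UncountableCompact
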